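import Pool.Agent.Helper243_Arrow.Bound

/-!
Lower bound for the function `f` of the problem: `f(k_1, …, k_r) ≥ k_1 + … + k_r + 2` for all
`r ≥ 2`, except possibly when `r = 2` and both parts are odd and at least `3`; in that case
`f(k_1, k_2) ≥ k_1 + k_2 + 1`.
-/

set_option autoImplicit false

namespace Pool.Agent.Results.MP_21a058_co.SumPlusTwo

open Pool.Agent.Helper243Arrow

/-- If `r ≥ 2`, all `k_i ≥ 1` and `k ↦ (k_1, …, k_r)`, then `k ≥ Σ k_i + 2`, or `r = 2`, both `k_i`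
are odd and at least `3`, and `k ≥ Σ k_i + 1`. -/
theorem result (r : ℕ) (ks : Fin r → ℕ) (hr : 2 ≤ r) (hpos : ∀ i, 1 ≤ ks i) (k : ℕ)
    (hk : Arrow k ks) :
    ∑ i, ks i + 2 ≤ k ∨ (r = 2 ∧ (∀ i, Odd (ks i) ∧ 3 ≤ ks i) ∧ ∑ i, ks i + 1 ≤ k) := by
  have hsum : 2 ≤ ∑ i, ks i := by
    calc 2 ≤ ∑ _i : Fin r, 1 := by simpa using hr
      _ ≤ ∑ i, ks i := Finset.sum_le_sum fun i _ => hpos i
  by_contra hcon
  push Not at hcon
  obtain ⟨h1, h2⟩ := hcon
  rcases Nat.even_or_odd (∑ i, ks i) with he | ho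
  · by_cases hexc : r = 2 ∧ ∀ i, Odd (ks i) ∧ 3 ≤ ks i
    · have h3 := h2 hexc.1 hexc.2
      obtain ⟨m, hm⟩ := he
      have hbig : 3 ≤ ∑ i, ks i :=
        le_trans (hexc.2 ⟨0, by omega⟩).2
          (Finset.single_le_sum (f := ks) (fun _ _ => Nat.zero_le _) (Finset.mem_univ _))
      have h4 := main_bound r ks hr hpos m (by omega) (by omega)
      exact h4 (arrow_mono (by omega) ks hk)
    · exact even_bound_all ks hr hpos he hexc (arrow_mono (by omega) ks hk)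
  · obtain ⟨m, hm⟩ := ho
    have h4 := main_bound r ks hr hpos (m + 1) (by omega) (by omega)
    exact h4 (arrow_mono (by omega) ks hk)

end Pool.Agent.Results.MP_21a058_co.SumPlusTwo
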